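import Pool.Agent.Work.MP_3b70de_al.E.Top

namespace Pool.Agent.Results.MP_3b70de_al.Embedding

open Pool.Agent.Work.MP_3b70de_al

/-- For all finite graphs `G, H`, the algebra `A(G,H)` has an injective (not necessarily unital)
*-homomorphism into `C*(Γ(M, 0))` for some homogeneous system `M x = 0`; it has a unital injective
*-homomorphism into some `C*(Γ(M, b))` exactly when `G` and `H` are isomorphic; and there are
non-isomorphic graphs with `A(G,H) ≠ 0`. -/
theorem result :
    (∀ (V W : Type) [Fintype V] [Fintype W] (G : SimpleGraph V) (H : SimpleGraph W)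
      (A : Type) [CStarAlgebra A] (p : V → W → A), IsIsoAlg G H p →
      (∃ (m n : ℕ) (M : Matrix (Fin m) (Fin n) (ZMod 2)) (C : Type) (_ : CStarAlgebra C)
        (u : SolGroup M 0 →* unitary C), IsFullGroupAlg u ∧
          ∃ φ : A →⋆ₙₐ[ℂ] C, Function.Injective φ) ∧
      ((∃ (m n : ℕ) (M : Matrix (Fin m) (Fin n) (ZMod 2)) (b : Fin m → ZMod 2) (C : Type)
        (_ : CStarAlgebra C) (u : SolGroup M b →* unitary C), IsFullGroupAlg u ∧
          ∃ φ : A →⋆ₐ[ℂ] C, Function.Injective φ) ↔ Nonempty (G ≃g H))) ∧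
    ∃ (G H : SimpleGraph (Fin 24)) (A : Type) (_ : CStarAlgebra A) (p : Fin 24 → Fin 24 → A),
      IsIsoAlg G H p ∧ Nontrivial A ∧ IsEmpty (G ≃g H) :=
  ⟨fun _ _ _ _ _ _ _ _ _ hA => ⟨E.top_nonunital hA, E.top_unital hA⟩, E.top_example⟩

end Pool.Agent.Results.MP_3b70de_al.Embedding
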