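import Pool.Agent.Work.MP_3b70de_al.E.Top

namespace Pool.Agent.Results.MP_3b70de_al.MinusUnital

open Pool.Agent.Work.MP_3b70de_al

/-- Targets `C*(Γ(M, b)) / (J + 1)`: a nonzero `A(G,H)` has a unital injective *-homomorphism into
such an algebra exactly when it has any unital *-homomorphism into a nonzero such algebra. -/
theorem result {V W : Type} [Fintype V] [Fintype W] (G : SimpleGraph V) (H : SimpleGraph W)
    (A : Type) [CStarAlgebra A] [Nontrivial A] (p : V → W → A) (hA : IsIsoAlg G H p) :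
    (∃ (m n : ℕ) (M : Matrix (Fin m) (Fin n) (ZMod 2)) (b : Fin m → ZMod 2) (C : Type)
      (_ : CStarAlgebra C) (x : Fin n → C), IsSolAlg M b x ∧
        ∃ φ : A →⋆ₐ[ℂ] C, Function.Injective φ) ↔
      ∃ (m n : ℕ) (M : Matrix (Fin m) (Fin n) (ZMod 2)) (b : Fin m → ZMod 2) (C : Type)
        (_ : CStarAlgebra C) (x : Fin n → C), IsSolAlg M b x ∧ Nontrivial C ∧
          Nonempty (A →⋆ₐ[ℂ] C) :=
  E.top_minus hA

end Pool.Agent.Results.MP_3b70de_al.MinusUnital
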