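import Pool.Agent.Work.MP_3b70de_al.Proof

namespace Pool.Agent.Results.MP_3b70de_al.NoEmbedding

open Pool.Agent.Work.MP_3b70de_al

/-- There are finite graphs `G, H` whose isomorphism game relations hold in some nonzero unital
C*-algebra (so the universal algebra `A(G,H)` is nonzero), while no unital C*-algebra in which
they hold (in particular `A(G,H)`) has a unital *-homomorphism, injective or not, into the full
group C*-algebra of any group (in particular of a solution group `Γ(M, b)`). -/
theorem result :
    ∃ G H : SimpleGraph (Fin 24),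
      (∃ (B : Type) (_ : CStarAlgebra B) (q : Fin 24 → Fin 24 → B), Nontrivial B ∧ IsoRel G H q) ∧
      ∀ (A : Type) [CStarAlgebra A] (p : Fin 24 → Fin 24 → A), IsoRel G H p →
        ∀ (Γ : Type) [Group Γ] (C : Type) [CStarAlgebra C] (u : Γ →* unitary C),
          IsFullGroupAlg u → IsEmpty (A →⋆ₐ[ℂ] C) :=
  ⟨GG, HH, ⟨E4 →L[ℂ] E4, inferInstance, magic, E4_nontrivial, magic_rel⟩, no_hom⟩

end Pool.Agent.Results.MP_3b70de_al.NoEmbedding
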