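import Pool.Agent.Work.MP_3b70de_al.F.Class

namespace Pool.Agent.Results.MP_3b70de_al.PowerOfTwo

open Pool.Agent.Work.MP_3b70de_al

/-- Targets `C*(Γ(M, b)) / (J + 1)` for systems with a finite-dimensional quantum solution:
`A(G,H)` has a unital injective *-homomorphism into such an algebra iff it has any unital
*-homomorphism into one iff it has a representation of dimension a power of two; and there is a
pair with a representation of dimension six and none of dimension a power of two. -/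
theorem result :
    (∀ (V W : Type) [Fintype V] [Fintype W] (G : SimpleGraph V) (H : SimpleGraph W)
      (A : Type) [CStarAlgebra A] (p : V → W → A), IsIsoAlg G H p → List.TFAE
      [∃ (m n : ℕ) (M : Matrix (Fin m) (Fin n) (ZMod 2)) (b : Fin m → ZMod 2) (C : Type)
        (_ : CStarAlgebra C) (x : Fin n → C), IsSolAlg M b x ∧
          (∃ (d : ℕ) (y : Fin n → Matrix (Fin (d + 1)) (Fin (d + 1)) ℂ), IsSol M b y) ∧
          ∃ φ : A →⋆ₐ[ℂ] C, Function.Injective φ,
      ∃ (m n : ℕ) (M : Matrix (Fin m) (Fin n) (ZMod 2)) (b : Fin m → ZMod 2) (C : Type)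
        (_ : CStarAlgebra C) (x : Fin n → C), IsSolAlg M b x ∧
          (∃ (d : ℕ) (y : Fin n → Matrix (Fin (d + 1)) (Fin (d + 1)) ℂ), IsSol M b y) ∧
          Nonempty (A →⋆ₐ[ℂ] C),
      ∃ (k : ℕ) (q : V → W →
        (EuclideanSpace ℂ (Fin (2 ^ k)) →L[ℂ] EuclideanSpace ℂ (Fin (2 ^ k)))), IsoRel G H q]) ∧
    ∃ (V W : Type) (_ : Fintype V) (_ : Fintype W) (G : SimpleGraph V) (H : SimpleGraph W)
      (A : Type) (_ : CStarAlgebra A) (p : V → W → A), IsIsoAlg G H p ∧
      (∃ q : V → W → (EuclideanSpace ℂ (Fin 6) →L[ℂ] EuclideanSpace ℂ (Fin 6)), IsoRel G H q) ∧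
      ∀ (k : ℕ) (q : V → W →
        (EuclideanSpace ℂ (Fin (2 ^ k)) →L[ℂ] EuclideanSpace ℂ (Fin (2 ^ k)))), ¬ IsoRel G H q :=
  ⟨fun _ _ _ _ _ _ _ _ _ hA => F.classify hA, F.six_example⟩

end Pool.Agent.Results.MP_3b70de_al.PowerOfTwo
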